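import Pool.Agent.U365.POW.E
import Pool.Agent.Results.MP_f5a5f7_nt.StarshapedWeakAbc

/-!
# The weak abc inequality for all numbers of a number field with height near `s(m)`, `m - φ(m)` or `α m + β f(m)`

Let `K` be a number field, `κ > 1` and `H_K(x) = exp ([K : ℚ] h(x))`. Let `s(m)` be the sum of the proper divisors of
`m`. Let `G` have steps bounded below by a positive constant and growth at most `v ^ d`, for example `G v = v`, `K` a
number field, `κ > 1`, `B` real, `θ ≥ 0` and `e = d min (4 / (7 κ)) (20 / 37) + θ < 1`. For a set of `m` of lower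
density at least `1 - e`: ALL `x ∈ K`, `x ≠ 0, 1`, whose height `H_K(x)` differs from `G (s(m))` by at most `s(m) ^ θ`
satisfy `h(x) < κ (cond(x) + cond(1/x) + cond(x - 1)) - B`; and the same holds for `m - φ(m)` in place of `s(m)`. More
precisely this holds for almost all `m` with a divisor `≥ m ^ (e + ρ)` which is a prime or the product of two
different primes, and for the values `g = α m + β f(m)` of multiplicative functions with `f p = p + c` at the primes,
uniformly in `|α|, |β| ≤ N ^ δ` and with a power saving in the number of the exceptional `m`.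

Note that `e - θ` tends to zero for `κ → ∞`. Proof. The starting theorem `FewExceptions` of this problem bounds the
number of the exceptions to the weak abc inequality with `H_K(x) ≤ X` by `X ^ (min (4 / (7 κ)) (20 / 37) + ε)`. Let `m
= k v p` with large primes `p ≠ v`. Then `g = A v p + B (v + p) + B c`, `A = α k + β f(k)`, `B = β c f(k)`, and so `(A
v + B) (A p + B) = A g + B² - A B c`: for given `g`, `k`, `α`, `β` there are only `N^o(1)` possibilities for `p` and
`v` (tool `Pool.Agent.U365.POW`).
-/

set_option autoImplicit false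

namespace Pool.Agent.Results.MP_f5a5f7_nt.AliquotValues

open NumberField IsDedekindDomain
open FewExceptions (height)
open StarshapedWeakAbc (Exc count)
open Pool.Agent.U365.POW (Values Dens values_set values_mono dens_mono)
open Pool.Agent.N733.TG (Expanding)

/-- all `x ∈ K`, `x ≠ 0, 1`, with `|exp ([K : ℚ] h(x)) - G v| ≤ v ^ θ` satisfy
`h(x) < κ (cond(x) + cond(1/x) + cond(x - 1)) - B` -/
def Near (K : Type) [Field K] [NumberField K] (κ B : ℝ) (G : ℕ → ℝ) (θ : ℝ) (v : ℕ) : Prop :=
  ∀ x : K, x ≠ 0 → x ≠ 1 → |Real.exp ((Module.finrank ℚ K : ℝ) * height x) - G v| ≤ (v : ℝ) ^ θ →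
    height x < κ * (FewExceptions.cond x + FewExceptions.cond x⁻¹ + FewExceptions.cond (x - 1)) - B

lemma near_of {K : Type} [Field K] [NumberField K] {κ B θ : ℝ} {G : ℕ → ℝ} {v : ℕ}
    (h : ∀ t ∈ Exc K κ B, ¬ |Real.exp ((Module.finrank ℚ K : ℝ) * height t) - G v| ≤ (v : ℝ) ^ θ) :
    Near K κ B G θ v := by
  intro x hx0 hx1 hw
  by_contra hcon
  push Not at hcon
  exact h x ⟨hx0, hx1, by show κ * (FewExceptions.cond x + FewExceptions.cond x⁻¹ + FewExceptions.cond (x - 1)) ≤ height x + B; linarith⟩ hw

/-- **Theorem.** Let `G` have steps `≥ a > 0` and growth at most `v ^ d`, `K` a number field, `κ > 1`, `B` real, `θ ≥ 0`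
and `e = d min (4 / (7 κ)) (20 / 37) + θ < 1`. For every `ρ > 0` the property `Near` holds for the values of similar
functions as the aliquot sum (`Values`: for `s(m)`, for `m - φ(m)` and for all `α m + β f(m)`, for almost all the `m`
with a divisor `≥ m ^ (e + ρ)` which is a prime or the product of two different primes), and it holds for `s(m)` and
`m - φ(m)` for a set of `m` of lower density at least `1 - e`. -/
theorem result : ∀ (G : ℕ → ℝ) (d : ℝ), Expanding G d → ∀ (K : Type) [Field K] [NumberField K] (κ B : ℝ) (θ : ℝ),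
    1 < κ → 0 ≤ θ → d * min (4 / (7 * κ)) (20 / 37) + θ < 1 →
    (∀ ρ : ℝ, 0 < ρ → Values (d * min (4 / (7 * κ)) (20 / 37) + θ + ρ) (Near K κ B G θ)) ∧
      Dens (1 - (d * min (4 / (7 * κ)) (20 / 37) + θ)) (Near K κ B G θ) := by
  intro G d hG K _ _ κ B θ hκ hθ h1
  obtain ⟨h2, h3⟩ := values_set (Exc K κ B) (fun x => Real.exp ((Module.finrank ℚ K : ℝ) * height x)) hG (s := min (4 / (7 * κ)) (20 / 37)) (le_min (by have := one_pos.trans hκ; positivity) (by norm_num)) hθ h1
    (count K κ B hκ)
  have hm : ∀ g : ℕ, (∀ t, |Real.exp ((Module.finrank ℚ K : ℝ) * height t) - G g| ≤ (g : ℝ) ^ θ → t ∉ (Exc K κ B)) → Near K κ B G θ g :=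
    fun g hg => near_of (fun t ht hw => hg t hw ht)
  exact ⟨fun ρ hρ => values_mono (h2 ρ hρ) hm, dens_mono h3 le_rfl hm⟩

end Pool.Agent.Results.MP_f5a5f7_nt.AliquotValues
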