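import Pool.Agent.U536.CF.F
import Pool.Agent.Results.MP_f5a5f7_nt.StarshapedWeakAbc

/-!
# The weak abc inequality for all numbers of a number field with height near an integer with a large common factor with a value of `f`

Let `K` be a number field, `κ > 1` and `H_K(x) = exp ([K : ℚ] h(x))`. Let `f` be a positive multiplicative function of
at most polynomial growth such that `f p ≤ M p` for the large primes `p`, with different values at different large
primes; for example Euler's function or the sum of the divisors. Let `G` have steps bounded below by a positive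
constant and growth at most `v^d`, for example `α v^d`. Let `b < 1` and `0 ≤ c < 2 b - 1`. For all `m ≤ N` but `N exp
(-(log N)^c)`, for EVERY integer `w ≥ exp ((log N)^b)` with `gcd(w, f(m)) ≥ w^ρ`: ALL `x ∈ K`, `x ≠ 0, 1`, whose
height `H_K(x)` differs from `G w` by at most `w ^ θ` satisfy `h(x) < κ (cond(x) + cond(1/x) + cond(x - 1)) - B`, if
`K` a number field, `κ > 1`, `B` real, `θ ≥ 0` and `d min (4 / (7 κ)) (20 / 37) + θ < ρ ≤ 1`. The integers `w` include
all large divisors of `f(m)` and their multiples by small integers; for Euler's function, the orders of the elements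
of the group of units modulo `m`.

As `κ` may be large, every `ρ > θ` is possible. Proof. The tool `Pool.Agent.U536.CF` bounds the number of the `m ≤ N`
for which such a `w` lies in a given set with a power saving, by Hölder's inequality for the number of the ordered
factorizations. The starting theorem `FewExceptions` of this problem bounds the number of the exceptions to the weak
abc inequality with `H_K(x) ≤ X` by `X ^ (min (4 / (7 κ)) (20 / 37) + ε)`.
-/

set_option autoImplicit false

namespace Pool.Agent.Results.MP_f5a5f7_nt.CommonFactors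

open NumberField IsDedekindDomain
open FewExceptions (height)
open StarshapedWeakAbc (Exc count)
open Pool.Agent.N733.TG (LM Expanding lm_totient lm_sigma expanding_pow)
open Pool.Agent.U536.CF (Common common_windows common_of_dvd common_order)

/-- all `x ∈ K`, `x ≠ 0, 1`, with `|exp ([K : ℚ] h(x)) - G v| ≤ v ^ θ` satisfy
`h(x) < κ (cond(x) + cond(1/x) + cond(x - 1)) - B` -/
def Near (K : Type) [Field K] [NumberField K] (κ B : ℝ) (G : ℕ → ℝ) (θ : ℝ) (v : ℕ) : Prop :=
  ∀ x : K, x ≠ 0 → x ≠ 1 → |Real.exp ((Module.finrank ℚ K : ℝ) * height x) - G v| ≤ (v : ℝ) ^ θ →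
    height x < κ * (FewExceptions.cond x + FewExceptions.cond x⁻¹ + FewExceptions.cond (x - 1)) - B

lemma near_of {K : Type} [Field K] [NumberField K] {κ B θ : ℝ} {G : ℕ → ℝ} {v : ℕ}
    (h : ∀ t ∈ Exc K κ B, ¬ |Real.exp ((Module.finrank ℚ K : ℝ) * height t) - G v| ≤ (v : ℝ) ^ θ) :
    Near K κ B G θ v := by
  intro x hx0 hx1 hw
  by_contra hcon
  push Not at hcon
  exact h x ⟨hx0, hx1, by show κ * (FewExceptions.cond x + FewExceptions.cond x⁻¹ + FewExceptions.cond (x - 1)) ≤ height x + B; linarith⟩ hw

/-- **The weak abc inequality for all numbers of a number field with height near all integers with a large common factor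
with a value of a multiplicative function.** Let `f` be multiplicative and positive, of at most polynomial growth,
with `f p ≤ M p` at the large primes, and injective there. Let `G` have steps `≥ a > 0` and growth at most `v^d`. Let
`b < 1` and `0 ≤ c < 2 b - 1`, `K` a number field, `κ > 1`, `B` real, `θ ≥ 0` and `d min (4 / (7 κ)) (20 / 37) + θ < ρ
≤ 1`. For all large `N`, for all `m ≤ N` but `N exp (-(log N)^c)`, the property `Near` holds at EVERY integer `w ≥ exp
((log N)^b)` with `gcd(w, f(m)) ≥ w^ρ`. All divisors `w ≥ exp ((log N)^b)` of `f(m)` are such integers `w`, and for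
Euler's function the orders `≥ exp ((log N)^b)` of the units modulo `m`. Euler's function and the sum of the divisors
are examples of `f`, and `α v^d` with `α > 0`, `d ≥ 1` is an example of `G`. -/
theorem result :
    (∀ f : ℕ → ℕ, LM f → ∀ (G : ℕ → ℝ) (d : ℝ), Expanding G d → ∀ (K : Type) [Field K] [NumberField K] (κ B : ℝ)
      (θ ρ b c : ℝ), 1 < κ → 0 ≤ θ → d * min (4 / (7 * κ)) (20 / 37) + θ < ρ → ρ ≤ 1 → b < 1 → 0 ≤ c → c < 2 * b - 1 →
      ∃ N₀ : ℕ, ∀ N : ℕ, N₀ ≤ N →
        ({m : ℕ | 1 ≤ m ∧ m ≤ N ∧ ¬ ∀ w : ℕ, Common f b ρ N m w → Near K κ B G θ w}.ncard : ℝ) ≤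
          N * Real.exp (-(Real.log N ^ c))) ∧
    (LM Nat.totient ∧ LM (fun m => ∑ d ∈ m.divisors, d)) ∧
    (∀ α d : ℝ, 0 < α → 1 ≤ d → Expanding (fun v => α * (v : ℝ) ^ d) d) ∧
    (∀ (f : ℕ → ℕ) (b ρ : ℝ) (N m w : ℕ), ρ ≤ 1 → Real.exp (Real.log N ^ b) ≤ (w : ℝ) → w ∣ f m → Common f b ρ N m w) ∧
    ∀ (b ρ : ℝ) (N m : ℕ), ρ ≤ 1 → ∀ x : (ZMod m)ˣ, Real.exp (Real.log N ^ b) ≤ (orderOf x : ℝ) →
      Common Nat.totient b ρ N m (orderOf x) := by
  refine ⟨?_, ⟨lm_totient, lm_sigma⟩, fun α d hα hd => expanding_pow hα hd, fun f b ρ N m w hρ hw hd => common_of_dvd hρ hw hd,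
    fun b ρ N m hρ x hx => common_order hρ x hx⟩
  intro f hf G d hG K _ _ κ B θ ρ b c hκ hθ h1 hρ hb hc hcb
  obtain ⟨N₀, hN₀⟩ := common_windows (Exc K κ B) (fun x => Real.exp ((Module.finrank ℚ K : ℝ) * height x)) hf hG (s := min (4 / (7 * κ)) (20 / 37)) (le_min (by have := one_pos.trans hκ; positivity) (by norm_num)) hθ h1 hρ hb hc hcb
    (count K κ B hκ)
  refine ⟨N₀, fun N hN => le_trans (Nat.cast_le.2 (Set.ncard_le_ncard ?_ ?_)) (hN₀ N hN)⟩
  · rintro m ⟨h2, h3, h4⟩
    push Not at h4
    obtain ⟨w, hw, h5⟩ := h4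
    refine ⟨h2, h3, w, hw, ?_⟩
    by_contra hcon
    push Not at hcon
    exact h5 (near_of (fun t ht => not_le.2 (hcon t ht)))
  · exact (Set.finite_Icc 1 N).subset fun m hm => ⟨hm.1, hm.2.1⟩

end Pool.Agent.Results.MP_f5a5f7_nt.CommonFactors
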