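import Pool.Agent.U449.BV.E
import Pool.Agent.Results.MP_f5a5f7_nt.StarshapedWeakAbc

/-!
# The weak abc inequality for all numbers of a number field with height near `f(a, b) + g(a) + h(b)`, `a`, `b` in arbitrary sets

Let `K` be a number field, `κ > 1` and `H_K(x) = exp ([K : ℚ] h(x))`. Let `f(x, y)` be an integer polynomial with a
monomial which contains both variables, `A`, `B` ARBITRARY finite sets of at least `X ^ δ` integers, and `g`, `h`
ARBITRARY real functions such that `F(a, b) = f(a, b) + g(a) + h(b)` has absolute value at most `X` on `A × B`. Let `θ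
≥ 0` and `min (4 / (7 κ)) (20 / 37) + θ < δ`. For all the pairs `(a, b)`, apart from a proportion of at most `X ^
(-ρ)`: ALL `x ∈ K`, `x ≠ 0, 1`, whose height `H_K(x)` differs from `F(a, b)` by at most `X ^ θ` satisfy `h(x) < κ
(cond(x) + cond(1/x) + cond(x - 1)) - B`. The same holds for the values of all functions `F(a, b)` of two variables
with few coincidences (`Rare`); `ρ > 0` depends only on the exponents and the degree of `f`.

Since `A`, `B`, `g` and `h` are arbitrary, the values have no arithmetic structure, and a value can be taken by very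
many pairs. So the number of the exceptions does not give the result directly. Proof: the inequality of Cauchy and
Schwarz; for most pairs `a, a'` the difference `F(a, b) - F(a', b)` is small for few `b` (`Pool.Agent.U449.BV`). The
starting theorem `FewExceptions` of this problem bounds the number of the exceptions to the weak abc inequality with
`H_K(x) ≤ X` by `X ^ (min (4 / (7 κ)) (20 / 37) + ε)`.
-/

set_option autoImplicit false

namespace Pool.Agent.Results.MP_f5a5f7_nt.MixedPolynomials

open NumberField IsDedekindDomain
open FewExceptions (height)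
open StarshapedWeakAbc (Exc count)
open Pool.Agent.U449.BV (Rare OnProducts on_products_set polys)

/-- all `x ∈ K`, `x ≠ 0, 1`, with `|exp ([K : ℚ] h(x)) - x₀| ≤ W` satisfy
`h(x) < κ (cond(x) + cond(1/x) + cond(x - 1)) - B` -/
def Near (K : Type) [Field K] [NumberField K] (κ B : ℝ) (W x₀ : ℝ) : Prop :=
  ∀ x : K, x ≠ 0 → x ≠ 1 → |Real.exp ((Module.finrank ℚ K : ℝ) * height x) - x₀| ≤ W →
    height x < κ * (FewExceptions.cond x + FewExceptions.cond x⁻¹ + FewExceptions.cond (x - 1)) - B

lemma near_of {K : Type} [Field K] [NumberField K] {κ B : ℝ} {W x₀ : ℝ}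
    (h : ∀ t ∈ Exc K κ B, ¬ |Real.exp ((Module.finrank ℚ K : ℝ) * height t) - x₀| ≤ W) :
    Near K κ B W x₀ := by
  intro x hx0 hx1 hw
  by_contra hcon
  push Not at hcon
  exact h x ⟨hx0, hx1, by show κ * (FewExceptions.cond x + FewExceptions.cond x⁻¹ + FewExceptions.cond (x - 1)) ≤ height x + B; linarith⟩ hw

/-- **Theorem.** Let `K` a number field, `κ > 1`, `B` real and `θ ≥ 0`. The property `Near`, with windows of length `X ^
θ`, holds for almost all values of functions of two variables with few coincidences, on arbitrary finite sets of at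
least `X ^ δ` elements, `min (4 / (7 κ)) (20 / 37) + θ < δ ≤ 1` (`OnProducts`). Coincidences are rare for `f(a, b) +
g(a) + h(b)`, where `f` is any integer polynomial with a monomial which contains both variables, and `g` and `h` are
arbitrary real functions, on arbitrary finite sets of integers. -/
theorem result :
    (∀ (K : Type) [Field K] [NumberField K] (κ B : ℝ) (θ : ℝ), 1 < κ → 0 ≤ θ →
      OnProducts (min (4 / (7 * κ)) (20 / 37) + θ) θ (Near K κ B)) ∧
    ∀ (d : ℕ) (f : MvPolynomial (Fin 2) ℤ), f.totalDegree ≤ d → (∃ m ∈ f.support, m 0 ≠ 0 ∧ m 1 ≠ 0) →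
      ∀ (g h : ℤ → ℝ) (A B : Finset ℤ),
        Rare d A B (fun a b => ((MvPolynomial.eval ![a, b] f : ℤ) : ℝ) + g a + h b) := by
  refine ⟨?_, polys⟩
  intro K _ _ κ B θ hκ hθ
  refine (on_products_set (Exc K κ B) (fun x => Real.exp ((Module.finrank ℚ K : ℝ) * height x)) (s := min (4 / (7 * κ)) (20 / 37)) (κ := θ) (le_min (by have := one_pos.trans hκ; positivity) (by norm_num)) hθ
    (count K κ B hκ)).mono fun W x₀ _ hg => ?_
  exact near_of (fun t ht hw => hg t hw ht)

end Pool.Agent.Results.MP_f5a5f7_nt.MixedPolynomials
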