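import Pool.Agent.U405.RS.F2
import Pool.Agent.Results.MP_f5a5f7_nt.StarshapedWeakAbc

/-!
# The weak abc inequality for all numbers of a number field with height near a value of `f` at thin sets of arguments

Let `K` be a number field, `κ > 1` and `H_K(x) = exp ([K : ℚ] h(x))`. Let `f` be a positive multiplicative function of
at most polynomial growth which for each `a ≥ 1` is injective at the powers `p ^ a` of the large primes and at most `M
p ^ a` there; for example Euler's function or the sum of the divisors. Let `G` have steps bounded below by a positive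
constant and growth at most `v ^ d`, for example `α v ^ d` with `α > 0` and `d ≥ 1`. Let `B` be real, `θ ≥ 0` and `e =
d min (4 / (7 κ)) (20 / 37) + θ`. ALL `x ∈ K`, `x ≠ 0, 1`, whose height `H_K(x)` differs from `G (f v)` by at most `(f
v) ^ θ` satisfy `h(x) < κ (cond(x) + cond(1/x) + cond(x - 1)) - B`, for almost all `v` (with a saving of any power of
the logarithm) in each of these sets:

* the values of any integer polynomial without repeated roots, of degree `< 1 / e`;
* the shifted primes `p + a`, `a` any integer, if `e < 1`;
* the intervals `(x, x + y]`, `x^τ ≤ y ≤ x`, for every `τ > e`, `τ ≤ 1`.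

As `κ` may be large, `e - θ` may be as small as we like: for polynomials of any degree `n` and any `θ < 1 / n` there
is `κ` such that the inequality of the question holds for all `x` near the values of `f` at almost all values of the
polynomial. Proof. The tool `Pool.Agent.U405.RS` (weighted Rankin method) shows that the values of `f` at almost all
elements of these sets avoid every set with a power saving. The starting theorem `FewExceptions` of this problem
bounds the number of the exceptions to the weak abc inequality with `H_K(x) ≤ X` by `X ^ (min (4 / (7 κ)) (20 / 37) +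
ε)`.
-/

set_option autoImplicit false

namespace Pool.Agent.Results.MP_f5a5f7_nt.SparseArguments

open NumberField IsDedekindDomain
open FewExceptions (height)
open StarshapedWeakAbc (Exc count)
open Pool.Agent.N733.TG (Expanding expanding_pow)
open Pool.Agent.U405.RS (PM Sparse sparse_set' examples)

/-- all `x ∈ K`, `x ≠ 0, 1`, with `|exp ([K : ℚ] h(x)) - G v| ≤ v ^ θ` satisfy
`h(x) < κ (cond(x) + cond(1/x) + cond(x - 1)) - B` -/
def Near (K : Type) [Field K] [NumberField K] (κ B : ℝ) (G : ℕ → ℝ) (θ : ℝ) (v : ℕ) : Prop :=
  ∀ x : K, x ≠ 0 → x ≠ 1 → |Real.exp ((Module.finrank ℚ K : ℝ) * height x) - G v| ≤ (v : ℝ) ^ θ →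
    height x < κ * (FewExceptions.cond x + FewExceptions.cond x⁻¹ + FewExceptions.cond (x - 1)) - B

lemma near_of {K : Type} [Field K] [NumberField K] {κ B θ : ℝ} {G : ℕ → ℝ} {v : ℕ}
    (h : ∀ t ∈ Exc K κ B, ¬ |Real.exp ((Module.finrank ℚ K : ℝ) * height t) - G v| ≤ (v : ℝ) ^ θ) :
    Near K κ B G θ v := by
  intro x hx0 hx1 hw
  by_contra hcon
  push Not at hcon
  exact h x ⟨hx0, hx1, by show κ * (FewExceptions.cond x + FewExceptions.cond x⁻¹ + FewExceptions.cond (x - 1)) ≤ height x + B; linarith⟩ hw

/-- **The weak abc inequality for all numbers of a number field with height near the values of `f` at thin sets of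
arguments.** Let `f` be in the class `PM`, let `G` have steps `≥ const > 0` and growth at most `v ^ d`, `K` a number
field, `κ > 1`, `B` real, `θ ≥ 0`. For every `U` the property `Near` holds in the sense `Sparse e f`, `e = d min (4 /
(7 κ)) (20 / 37) + θ`: with a saving of `(log x)^U` it holds at `f v` for almost all `v` among the positive values of
every integer polynomial without repeated roots of degree `< 1 / e`; among the shifted primes `p + a` for every `a`,
if `e < 1`; and in all intervals `(x, x + y]`, `x^τ ≤ y ≤ x`, `e < τ ≤ 1`. Euler's function, the sum of the divisors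
and the identity are in the class, and `α v^d` with `α > 0`, `d ≥ 1` is an example of `G`. -/
theorem result :
    (∀ f : ℕ → ℕ, PM f → ∀ (G : ℕ → ℝ) (d : ℝ), Expanding G d → ∀ (K : Type) [Field K] [NumberField K] (κ B : ℝ) (θ : ℝ),
      1 < κ → 0 ≤ θ → ∀ U : ℕ, Sparse (d * min (4 / (7 * κ)) (20 / 37) + θ) f (Near K κ B G θ) U) ∧
    (PM Nat.totient ∧ PM (fun m => ∑ d ∈ m.divisors, d) ∧ PM (fun m => m)) ∧
    ∀ α d : ℝ, 0 < α → 1 ≤ d → Expanding (fun v => α * (v : ℝ) ^ d) d := by
  refine ⟨?_, examples, fun α d hα hd => expanding_pow hα hd⟩
  intro f hf G d hG K _ _ κ B θ hκ hθ U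
  exact sparse_set' (Exc K κ B) (fun x => Real.exp ((Module.finrank ℚ K : ℝ) * height x)) hf hG (s := min (4 / (7 * κ)) (20 / 37)) (le_min (by have := one_pos.trans hκ; positivity) (by norm_num)) hθ rfl
    (count K κ B hκ) _ U (fun v hv => near_of hv)

end Pool.Agent.Results.MP_f5a5f7_nt.SparseArguments
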